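import Pool.Agent.V7H97.ConeFin

set_option autoImplicit false

/-!
Solid angles of random high-dimensional cones: the measures `μ_d = 2^d d P(α_d ∈ ·)` converge vaguely
on `(0, ∞)` to a nonzero locally finite measure.

Proof. By the symmetry `E[α_d ^ k] = E[α_k ^ d]` one has to study, for fixed `k`, the probability that
the solid angle of the random cone in `ℝ^k` is close to `1/2`. Given `k - 1` of the vectors, which span
a hyperplane, the solid angle is close to `1/2` when the last vector is close to the hyperplane and, up
to this small distance, inside minus the cone of the other vectors; this gives the convergence of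
`d 2^d E[α_k ^ d]` to a positive finite limit for every `k ≥ 2`, with domination by the planar
marginal. So all moments of `x² μ_d(dx)` converge, hence (Weierstrass) all integrals of continuous
functions on `[0, 1]`, and the limit is represented by a measure (Riesz). The limit is not
concentrated at zero since the first moment of `x² μ_d(dx)` has a positive limit.
-/

namespace Pool.Agent.Results.MP_da621d_pr.VagueLimitH97

open MeasureTheory Set Filter Topology

/-- the uniform distribution on the unit sphere of `ℝ^d`: the normalised surface measure -/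
noncomputable def unif (d : ℕ) : Measure (Metric.sphere (0 : EuclideanSpace ℝ (Fin d)) 1) :=
  ((volume : Measure (EuclideanSpace ℝ (Fin d))).toSphere univ)⁻¹ •
    (volume : Measure (EuclideanSpace ℝ (Fin d))).toSphere

/-- the positive hull of `d` vectors -/
def posHull {d : ℕ} (x : Fin d → EuclideanSpace ℝ (Fin d)) : Set (EuclideanSpace ℝ (Fin d)) :=
  {y | ∃ c : Fin d → ℝ, (∀ i, 0 ≤ c i) ∧ y = ∑ i, c i • x i}

/-- the solid angle of a cone: the probability that a uniform point of the sphere is in it -/
noncomputable def solidAngle {d : ℕ} (C : Set (EuclideanSpace ℝ (Fin d))) : ℝ :=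
  (unif d).real {u | (u : EuclideanSpace ℝ (Fin d)) ∈ C}

/-- the solid angle of the positive hull of `d` points of the unit sphere of `ℝ^d` -/
noncomputable def alpha (d : ℕ) (u : Fin d → Metric.sphere (0 : EuclideanSpace ℝ (Fin d)) 1) : ℝ :=
  solidAngle (posHull fun i => (u i : EuclideanSpace ℝ (Fin d)))

/-- the joint law of `d` independent uniform points of the unit sphere of `ℝ^d` -/
noncomputable def law (d : ℕ) :
    Measure (Fin d → Metric.sphere (0 : EuclideanSpace ℝ (Fin d)) 1) :=
  Measure.pi fun _ => unif d

/-- the measure `μ_d(A) = 2^d d P(α_d ∈ A)` on `(0, ∞)` -/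
noncomputable def mu (d : ℕ) : Measure (Ioi (0 : ℝ)) :=
  ((2 : ENNReal) ^ d * d) • (Measure.map (alpha d) (law d)).comap Subtype.val

/-- The function `α_d` is measurable, so that `Measure.map` is the true image measure, and the
measures `μ_d` converge vaguely on `(0, ∞)` to a nonzero locally finite measure. -/
theorem result :
    (∀ d : ℕ, Measurable (alpha d)) ∧
    ∃ μ : Measure (Ioi (0 : ℝ)), IsLocallyFiniteMeasure μ ∧ μ ≠ 0 ∧
      ∀ f : Ioi (0 : ℝ) → ℝ, Continuous f → HasCompactSupport f →
        Tendsto (fun d : ℕ => ∫ x, f x ∂(mu d)) atTop (𝓝 (∫ x, f x ∂μ)) := by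
  have : LocallyCompactSpace (Ioi (0 : ℝ)) := isOpen_Ioi.locallyCompactSpace
  refine ⟨fun d => Pool.Agent.V7H97.Cone.measurable_alpha d, ?_⟩
  have hint : ∀ f : CompactlySupportedContinuousMap (Ioi (0 : ℝ)) ℝ,
      ∫ x, f x ∂(RealRMK.rieszMeasure Pool.Agent.V7H97.Cone.LamPos) =
        Pool.Agent.V7H97.Cone.Lam f :=
    fun f => RealRMK.integral_rieszMeasure Pool.Agent.V7H97.Cone.LamPos f
  refine ⟨RealRMK.rieszMeasure Pool.Agent.V7H97.Cone.LamPos, inferInstance, ?_, ?_⟩
  · intro h0
    obtain ⟨f, hf⟩ := Pool.Agent.V7H97.Cone.test_pos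
    rw [← hint f, h0, integral_zero_measure] at hf
    exact lt_irrefl _ hf
  · intro f hf hs
    have h1 := Pool.Agent.V7H97.Cone.Lam_spec ⟨⟨f, hf⟩, hs⟩
    rw [← hint ⟨⟨f, hf⟩, hs⟩] at h1
    exact h1

end Pool.Agent.Results.MP_da621d_pr.VagueLimitH97
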